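import Pool.Agent.Helper53.PF.St

set_option linter.style.longLine false

/-!
# Project PF, MODULE LND

The root `β/α` of `F = FQ n D a b c` (the fourth root, besides the three of `M`) is a root of
`GQ n D a b c`: homogenize, cancel the linear factor, and use the Euler trace formula `StTRC`.
-/

namespace PF.Helper94

open Polynomial

lemma ev_C {k : Type} [Field k] (v y f : k[X]) : ev v y (C f) = f.comp v := by
  simp [ev]

lemma ev_X {k : Type} [Field k] (v y : k[X]) : ev v y X = y := by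
  simp [ev]

lemma GQ_deg {k : Type} [Field k] (n : k) (D a b c : k[X]) : (GQ n D a b c).natDegree ≤ 2 := by
  unfold GQ
  compute_degree

lemma deg2_eq {k : Type} [Field k] (P : k[X][X]) (h : P.natDegree ≤ 2) :
    P = C (P.coeff 0) + C (P.coeff 1) * X + C (P.coeff 2) * X ^ 2 := by
  conv_lhs => rw [P.as_sum_range_C_mul_X_pow' (n := 3) (by omega)]
  simp [Finset.sum_range_succ]

lemma deg3_eq {k : Type} [Field k] (P : k[X][X]) (h : P.natDegree ≤ 3) :
    P = C (P.coeff 0) + C (P.coeff 1) * X + C (P.coeff 2) * X ^ 2 + C (P.coeff 3) * X ^ 3 := by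
  conv_lhs => rw [P.as_sum_range_C_mul_X_pow' (n := 4) (by omega)]
  simp [Finset.sum_range_succ]

theorem holds_LND : PF.StLND := by
  intro hTRC hIND k _ _ n s z hs hz M hM hM3 hMe V a₀ b₀ hV D a b c β hc hF hVF
  set α : k[X] := 3 * X * c ^ 2 with hα
  have h3 : (3 : k[X]) ≠ 0 := by
    have h : ((3 : ℕ) : k[X]) ≠ 0 := by
      rw [← C_eq_natCast, Ne, C_eq_zero]
      norm_num
    exact_mod_cast h
  have hα0 : α ≠ 0 := mul_ne_zero (mul_ne_zero h3 X_ne_zero) (pow_ne_zero 2 hc)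
  set G : k[X][X] := GQ n D a b c with hGdef
  have hG2 : G.natDegree ≤ 2 := GQ_deg n D a b c
  obtain ⟨g0, hg0⟩ : ∃ g0, G.coeff 0 = g0 := ⟨_, rfl⟩
  obtain ⟨g1, hg1⟩ : ∃ g1, G.coeff 1 = g1 := ⟨_, rfl⟩
  obtain ⟨g2, hg2⟩ : ∃ g2, G.coeff 2 = g2 := ⟨_, rfl⟩
  have hG : G = C g0 + C g1 * X + C g2 * X ^ 2 := by
    rw [← hg0, ← hg1, ← hg2]
    exact deg2_eq G hG2
  obtain ⟨m0, hm0⟩ : ∃ m0, M.coeff 0 = m0 := ⟨_, rfl⟩
  obtain ⟨m1, hm1⟩ : ∃ m1, M.coeff 1 = m1 := ⟨_, rfl⟩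
  obtain ⟨m2, hm2⟩ : ∃ m2, M.coeff 2 = m2 := ⟨_, rfl⟩
  have hMc3 : M.coeff 3 = 1 := by
    rw [← hM3]
    exact hM.coeff_natDegree
  have hMeq : M = C m0 + C m1 * X + C m2 * X ^ 2 + X ^ 3 := by
    have h := deg3_eq M hM3.le
    rw [hm0, hm1, hm2, hMc3, C_1, one_mul] at h
    exact h
  rw [hg0, hg1, hg2]
  -- the homogenizations
  set γ : k[X] := g0 * α ^ 2 + g1 * α * β + g2 * β ^ 2 with hγ
  set e : k[X] := β ^ 3 + α * m2 * β ^ 2 + α ^ 2 * m1 * β + α ^ 3 * m0 with he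
  set B : k[X][X] := C α * X - C β with hB
  obtain ⟨q₁, hq₁⟩ : ∃ q₁ : k[X][X], q₁ = C (α * g1 + g2 * β) + C (g2 * α) * X := ⟨_, rfl⟩
  obtain ⟨q₂, hq₂⟩ : ∃ q₂ : k[X][X], q₂ = C (β ^ 2 + α * m2 * β + α ^ 2 * m1)
    + C (α * β + α ^ 2 * m2) * X + C (α ^ 2) * X ^ 2 := ⟨_, rfl⟩
  have e1 : C (α ^ 2) * G = C γ + B * q₁ := by
    rw [hG, hq₁, hB, hγ]
    simp only [C_add, C_mul, C_pow]
    ring
  have e2 : C (α ^ 3) * M = C e + B * q₂ := by
    rw [hMeq, hq₂, hB, he]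
    simp only [C_add, C_mul, C_pow]
    ring
  obtain ⟨P₂, hP₂⟩ : ∃ P₂ : k[X][X], P₂ = C e * q₁ - C γ * q₂ := ⟨_, rfl⟩
  have e3 : C (e * α ^ 2) * G = C (γ * α ^ 3) * M + B * P₂ := by
    rw [hP₂, C_mul, C_mul]
    linear_combination C e * e1 - C γ * e2
  -- values at `(s, z)`
  have v1 : (e * α ^ 2).comp s * ev s z G = ev s z B * ev s z P₂ := by
    have h := congrArg (ev s z) e3
    rw [RingHom.map_mul (ev s z), RingHom.map_add (ev s z), RingHom.map_mul (ev s z),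
      RingHom.map_mul (ev s z), hMe, mul_zero, zero_add, ev_C] at h
    exact h
  have hFd : ev s z (derivative (FQ n D a b c)) = ev s z (derivative M) * ev s z B := by
    rw [hF, derivative_mul, map_add, map_mul, map_mul, hMe, zero_mul, add_zero]
  have hB0 : ev s z B ≠ 0 := by
    intro h0
    rw [hB, map_sub, map_mul, ev_C, ev_C, ev_X] at h0
    have h := hIND k s z (-β) α 0 hs (by rw [hz]; omega) (by
      rw [neg_comp, zero_comp, zero_mul, add_zero]
      linear_combination h0)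
    exact hα0 h.2.1
  have v2 : ((e * α ^ 2).comp s * V) * ev s z (derivative M) = ev s z (-P₂) * derivative s := by
    apply mul_right_cancel₀ hB0
    rw [hFd] at hVF
    rw [map_neg]
    linear_combination (e * α ^ 2).comp s * hVF - derivative s * v1
  -- the trace formula
  obtain ⟨H, hH⟩ : ∃ H : k[X][X], H = C (e * α ^ 2 * a₀) + C (e * α ^ 2 * b₀) * X := ⟨_, rfl⟩
  have hHd : H.natDegree ≤ 1 := by
    rw [hH]
    compute_degree
  have hHe : ev s X H = (e * α ^ 2).comp s * V := by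
    rw [hH, RingHom.map_add (ev s X), RingHom.map_mul (ev s X), ev_C, ev_C, ev_X, hV,
      mul_comp _ a₀, mul_comp _ b₀]
    ring
  obtain ⟨p0, p1, hP⟩ : ∃ p0 p1 : k[X], P₂ = C p0 + C p1 * X + C (-(γ * α ^ 2)) * X ^ 2 := by
    refine ⟨e * (α * g1 + g2 * β) - γ * (β ^ 2 + α * m2 * β + α ^ 2 * m1),
      e * (g2 * α) - γ * (α * β + α ^ 2 * m2), ?_⟩
    rw [hP₂, hq₁, hq₂]
    simp only [C_add, C_sub, C_neg, C_mul, C_pow]
    ring
  have hPd : P₂.natDegree ≤ 2 := by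
    rw [hP]
    compute_degree
  have hPc : P₂.coeff 2 = -(γ * α ^ 2) := by
    rw [hP]
    generalize -(γ * α ^ 2) = p2
    simp
  have key := hTRC k 3 s z M (-P₂) H (by norm_num) hs (by rw [hz]; norm_num) hM.ne_zero hM3.le hMe
    (by rw [natDegree_neg]; omega) (by omega) (by rw [hHe]; exact v2)
  have k2 := key.2
  have hH2 : H.coeff (3 - 1) = 0 := coeff_eq_zero_of_natDegree_lt (by omega)
  rw [hH2, zero_mul, coeff_neg, hPc, neg_neg] at k2
  have hσ : (C s.leadingCoeff : k[X]) ≠ 0 := by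
    rw [Ne, C_eq_zero, leadingCoeff_eq_zero]
    intro h0
    rw [h0] at hs
    simp at hs
  rcases mul_eq_zero.1 k2.symm with h | h
  · exact absurd h hσ
  rcases mul_eq_zero.1 h with h | h
  · exact h
  · exact absurd h (pow_ne_zero 2 hα0)

end PF.Helper94
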